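import Pool.Agent.H.MP_582e6d_pr.C

set_option autoImplicit false

namespace Pool.Agent.Results.MP_582e6d_pr.Yes
open Pool.Agent.H.MP_582e6d_pr

theorem result (a b c : ℝ) (hb : 0 < b) (hba : b ≤ a) (ha : a < 1) (hc : 0 < c) (hc' : c ≤ 1 / 2) (N : ℕ) :
    P a b c N 1 ≤ P a b c N 2 ∧ P a b c N 0 ≤ P a b c N 2 :=
  fin' hb hba ha hc hc' N

end Pool.Agent.Results.MP_582e6d_pr.Yes
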